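import Pool.Agent.H85.ML.BFew

/-!
# Local trees of bounded blocks: the extremal multi-layer cop number is `o(n)`

For every `τ ≥ 1` and every `b` the extremal multi-layer cop number `c^max_τ(G)` is `o(n)` for
connected graphs `G` on `n` vertices which, up to few edges, are locally trees of blocks of at most `b`
vertices. For `b = 2` these are the graphs with few short cycles.

Idea. Let `q` be large and let all cycles of the incidence graph of the blocks be longer than `12 q`. In
every layer choose a root and the distances (depths) from it, and one of the `q` residue classes of the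
depths modulo `q` with at most `n / q` vertices; there are `b` cops of this layer on all these vertices
(the bases), on the root and on the ends of the edges of `F`. Few cops protect all vertices of large
degree. When the robber starts at `v`, a reduced block walk from `v` is followed up to the first vertex
`z` of index at least `q` such that in some layer the way from `z` to the root does not stay in the last
block until the preceding vertex, or meets a base before (this happens after at most `q` further
blocks, because otherwise the depths in the layer would cover `q` consecutive values). A cop of the first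
base on this way reaches the exit `z` before the robber. At most `b` exits use the same base, as short
reduced block walks are unique. So the robber is confined to a bounded number of vertices, and a
bounded number of further cops catches him.
-/

set_option autoImplicit false

namespace Pool.Agent.Results.MP_6ecee4_co.LocalBlockTrees

open Pool.Agent.H85.ML

/-- **Theorem.** Let `τ ≥ 1`, `b ≥ 0` and `ε > 0`. There are `g`, `δ > 0` and `n₀` such that
`c^max_τ(G) ≤ ε n` for every connected graph `G` on `n ≥ n₀` vertices with the following property: after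
the deletion of at most `δ n` edges every edge lies in a block of a family of blocks of at most `b`
vertices, and all cycles of the incidence graph of the blocks have more than `g` edges. -/
theorem result (τ b : ℕ) (hτ : 1 ≤ τ) (ε : ℝ) (hε : 0 < ε) :
    ∃ (g : ℕ) (δ : ℝ) (n₀ : ℕ), 0 < δ ∧ ∀ n : ℕ, n₀ ≤ n →
      ∀ G : SimpleGraph (Fin n), G.Connected →
      ∀ (F : Finset (Sym2 (Fin n))) (β : Type) (B : β → Finset (Fin n)),
        (F.card : ℝ) ≤ δ * n → (∀ e, (B e).card ≤ b) →
        (∀ x y, (G.deleteEdges F).Adj x y → ∃ e, x ∈ B e ∧ y ∈ B e) →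
        (∀ (u : Fin n ⊕ β) (c : (inc B).Walk u u), c.IsCycle → g < c.length) →
        (cMax τ G : ℝ) ≤ ε * n := by
  set a : ℕ := b + 1 with ha
  set q : ℕ := ⌈4 * ((a : ℝ) + 2) * τ / ε⌉₊ + 1 with hqdef
  have hq1 : 1 ≤ q := by omega
  have hq0 : (0 : ℝ) < q := by exact_mod_cast hq1
  have hq : 4 * ((a : ℝ) + 2) * τ / ε ≤ q := by
    rw [hqdef]
    push_cast
    have := Nat.le_ceil (4 * ((a : ℝ) + 2) * τ / ε)
    linarith
  set M : ℕ := (τ * q ^ 2 * a + 1) ^ (2 * q) with hM
  refine ⟨12 * q, ε / (8 * (a * τ + 1)), max (q ^ 2) ⌈4 * ((a : ℝ) * τ + M) / ε⌉₊,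
    by positivity, ?_⟩
  intro n hn G _ F β B hF hb hcov hg
  have hn1 : q ^ 2 ≤ n := (le_max_left _ _).trans hn
  have hn2 : 4 * ((a : ℝ) * τ + M) / ε ≤ n := by
    refine (Nat.le_ceil _).trans ?_
    exact_mod_cast (le_max_right _ _).trans hn
  have h2 := bcMax_mul_le hτ hq1 (show 1 ≤ a by omega) hn1 G F B (fun e => (hb e).trans (by omega))
    hcov hg
  rw [← hM] at h2
  have h2' : (q : ℝ) * cMax τ G ≤ (a + 2) * τ * n + q * (a * τ + 2 * (a * τ + 1) * F.card + M) := by
    exact_mod_cast h2
  have hn0 : (0 : ℝ) ≤ n := Nat.cast_nonneg n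
  have h3 : ((a : ℝ) + 2) * τ * n ≤ q * (ε / 4 * n) := by
    rw [div_le_iff₀ hε] at hq
    nlinarith [mul_le_mul_of_nonneg_right hq hn0]
  have h4 : 2 * ((a : ℝ) * τ + 1) * F.card ≤ ε / 4 * n := by
    have hτ0 : (0 : ℝ) < 2 * ((a : ℝ) * τ + 1) := by positivity
    calc 2 * ((a : ℝ) * τ + 1) * F.card ≤ 2 * ((a : ℝ) * τ + 1) * (ε / (8 * (a * τ + 1)) * n) :=
          mul_le_mul_of_nonneg_left hF hτ0.le
      _ = ε / 4 * n := by field_simp; ring
  have h5 : (a : ℝ) * τ + M ≤ ε / 4 * n := by
    rw [div_le_iff₀ hε] at hn2
    linarith
  have h6 : (q : ℝ) * (a * τ + 2 * (a * τ + 1) * F.card + M) ≤ q * (ε / 4 * n + ε / 4 * n) :=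
    mul_le_mul_of_nonneg_left (by linarith) hq0.le
  have h7 : (q : ℝ) * cMax τ G ≤ q * (ε * n) := by
    have h8 : (0 : ℝ) ≤ q * (ε / 4 * n) := by positivity
    nlinarith
  exact le_of_mul_le_mul_left h7 hq0

end Pool.Agent.Results.MP_6ecee4_co.LocalBlockTrees
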