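import Pool.Agent.H85.ML.Final

/-!
# A near-linear lower bound for the extremal multi-layer cop number

For every `τ ≥ 2` and every `n ≥ 1` there is a connected graph `G` on `n` vertices with
`c^max_τ(G) ≥ n / 2 ^ (90 + 29 log* n)`.

Idea. Iterate products with expanders. Given two connected layers `H 0`, `H 1` on a set `A`, the
vertices of the product are the pairs `(x, a)`, where `a ∈ A` and `x = (y, m)` is an edge of the
bipartite graph with `y` on the left joined to `π m y` on the right, for three permutations `π 0 = 1`,
`π 1`, `π 2` of `Fin N` whose union expands. The layer `i` has the edges of `H i` in all fibres, all
edges `(x, a) ~ (x', a)` with `x, x'` in the same cell of the layer `i` (the same left end for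
`i = 0`, the same right end for `i = 1`), and one edge between consecutive cells, so that it is
connected. For a long time a cop remains in one of three consecutive cells of his layer, while the
robber, who uses both layers, can reach the whole base graph. So he can avoid all fibres near which
there are too many cops, and in the other fibres he wins by induction, where the induction hypothesis
is that within `T + 1` rounds he can move to a good position with respect to a second group of cops.
A level is exponentially larger than the previous one, and it costs only a constant factor.
-/

set_option autoImplicit false

namespace Pool.Agent.Results.MP_6ecee4_co.NearLinearLowerBound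

open Pool.Agent.H85.ML

/-- **Theorem.** For all `τ ≥ 2` and `n ≥ 1` there is a connected graph `G` on `n` vertices with
`c^max_τ(G) ≥ n / 2 ^ (90 + 29 log* n)`, where `log*` is the iterated logarithm to the base 2. -/
theorem result : ∀ τ : ℕ, 2 ≤ τ → ∀ n : ℕ, 1 ≤ n → ∃ G : SimpleGraph (Fin n), G.Connected ∧
    n ≤ 2 ^ (90 + 29 * logStar n) * cMax τ G := main

end Pool.Agent.Results.MP_6ecee4_co.NearLinearLowerBound
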